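import Pool.Agent.N70.ES.Stm

/-!
Project ES (helper70): WG, two alternating fibre powers, side by side.
-/

set_option autoImplicit false

namespace Pool.Agent.N394.ES

open Pool.Agent.H391R2 Pool.Agent.H391R2.T4 Pool.Agent.Y793
open Pool.Agent.N70.EQ (FPk fpk)

/-- Two permutations, side by side. -/
def ap {n n' : ℕ} (σ : Equiv.Perm (Fin n)) (τ : Equiv.Perm (Fin n')) :
    Equiv.Perm (Fin (n + n')) :=
  finSumFinEquiv.permCongr (Equiv.Perm.sumCongr σ τ)

theorem ap_left {n n' : ℕ} (σ : Equiv.Perm (Fin n)) (τ : Equiv.Perm (Fin n')) (i : Fin n) :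
    ap σ τ (Fin.castAdd n' i) = Fin.castAdd n' (σ i) := by
  simp [ap, Equiv.permCongr_apply]

theorem ap_right {n n' : ℕ} (σ : Equiv.Perm (Fin n)) (τ : Equiv.Perm (Fin n')) (i : Fin n') :
    ap σ τ (Fin.natAdd n i) = Fin.natAdd n (τ i) := by
  simp [ap, Equiv.permCongr_apply]

theorem ap_mul {n n' : ℕ} (σ σ' : Equiv.Perm (Fin n)) (τ τ' : Equiv.Perm (Fin n')) :
    ap (σ * σ') (τ * τ') = ap σ τ * ap σ' τ' := by
  ext i
  refine Fin.addCases (fun i => ?_) (fun i => ?_) i
  · rw [Equiv.Perm.mul_apply, ap_left, ap_left, ap_left, Equiv.Perm.mul_apply]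
  · rw [Equiv.Perm.mul_apply, ap_right, ap_right, ap_right, Equiv.Perm.mul_apply]

theorem ap_one {n n' : ℕ} : ap (1 : Equiv.Perm (Fin n)) (1 : Equiv.Perm (Fin n')) = 1 := by
  ext i
  refine Fin.addCases (fun i => ?_) (fun i => ?_) i
  · rw [ap_left]; rfl
  · rw [ap_right]; rfl

theorem ap_inv {n n' : ℕ} (σ : Equiv.Perm (Fin n)) (τ : Equiv.Perm (Fin n')) :
    (ap σ τ)⁻¹ = ap σ⁻¹ τ⁻¹ := by
  rw [inv_eq_iff_mul_eq_one, ← ap_mul, mul_inv_cancel, mul_inv_cancel, ap_one]

theorem sign_ap {n n' : ℕ} (σ : Equiv.Perm (Fin n)) (τ : Equiv.Perm (Fin n')) :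
    Equiv.Perm.sign (ap σ τ) = Equiv.Perm.sign σ * Equiv.Perm.sign τ := by
  unfold ap
  rw [Equiv.Perm.sign_permCongr, Equiv.Perm.sign_sumCongr]

/-- Two elements of wreath products, side by side. -/
def app {B : Type} [Group B] {n n' : ℕ} (x : Wr B n) (y : Wr B n') : Wr B (n + n') :=
  ⟨Fin.append x.left y.left, ap x.right y.right⟩

theorem app_mul {B : Type} [Group B] {n n' : ℕ} (x x' : Wr B n) (y y' : Wr B n') :
    app (x * x') (y * y') = app x y * app x' y' := by
  apply SemidirectProduct.ext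
  · funext i
    rw [wr_mul_left]
    change Fin.append (x * x').left (y * y').left i =
      Fin.append x.left y.left i * Fin.append x'.left y'.left ((ap x.right y.right)⁻¹ i)
    rw [ap_inv]
    refine Fin.addCases (fun i => ?_) (fun i => ?_) i
    · rw [ap_left, Fin.append_left, Fin.append_left, Fin.append_left, wr_mul_left]
    · rw [ap_right, Fin.append_right, Fin.append_right, Fin.append_right, wr_mul_left]
  · exact ap_mul _ _ _ _

theorem app_one {B : Type} [Group B] {n n' : ℕ} : app (1 : Wr B n) (1 : Wr B n') = 1 := by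
  apply SemidirectProduct.ext
  · funext i
    change Fin.append (1 : Wr B n).left (1 : Wr B n').left i = 1
    refine Fin.addCases (fun i => ?_) (fun i => ?_) i
    · rw [Fin.append_left]; rfl
    · rw [Fin.append_right]; rfl
  · exact ap_one

theorem t_wg : Pool.Agent.N70.ES.St_wg := by
  intro Γ B _ _ a χ χ' n n'
  refine ⟨{ toFun := fun z => ⟨(app z.1.1.1.1 z.1.2.1.1, z.1.2.1.2), ?_⟩
            map_one' := ?_
            map_mul' := ?_ }, fun z => rfl⟩
  · have h1 := Subgroup.mem_inf.1 z.1.1.2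
    have h2 := Subgroup.mem_inf.1 z.1.2.2
    have h3 : z.1.1.1.2 = z.1.2.1.2 := z.2
    have h4 : ∀ i, a (z.1.1.1.1.left i) = z.1.1.1.2 := h1.1
    have h5 : ∀ i, a (z.1.2.1.1.left i) = z.1.2.1.2 := h2.1
    have h6 : Equiv.Perm.sign z.1.1.1.1.right = χ z.1.1.1.2 := h1.2
    have h7 : Equiv.Perm.sign z.1.2.1.1.right = χ' z.1.2.1.2 := h2.2
    refine Subgroup.mem_inf.2 ⟨?_, ?_⟩
    · intro i
      change a (Fin.append z.1.1.1.1.left z.1.2.1.1.left i) = z.1.2.1.2
      refine Fin.addCases (fun i => ?_) (fun i => ?_) i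
      · rw [Fin.append_left, h4, h3]
      · rw [Fin.append_right, h5]
    · change Equiv.Perm.sign (ap z.1.1.1.1.right z.1.2.1.1.right) = χ z.1.2.1.2 * χ' z.1.2.1.2
      rw [sign_ap, h6, h7, h3]
  · apply Subtype.ext
    exact Prod.ext app_one rfl
  · intro z w
    apply Subtype.ext
    exact Prod.ext (app_mul _ _ _ _) rfl

end Pool.Agent.N394.ES
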